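import Pool.Agent.Y602.ST.Red

set_option autoImplicit false

/-!
The class of `{0, 1}`-valued diagonally non-computable functions lies above every nonempty
`Π⁰₁` class of binary sequences.
-/

namespace Pool.Agent.Y602.ST

open Encodable Nat.Partrec Pool.Agent.H715R3.Medv Pool.Agent.H715R3.Sof

/-- `P` is a `Π⁰₁` class of binary sequences: the set of binary sequences all of whose initial
segments lie in some computable set of strings. -/
def IsPi01Class (P : Set (ℕ → ℕ)) : Prop :=
  ∃ T : List ℕ → Bool, Computable T ∧ P = {x | (∀ n, x n < 2) ∧ ∀ m, T (seg x m) = true}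

lemma exists_bt (x : ℕ → ℕ) (hx : ∀ i, x i ≤ 1) (t : ℕ) :
    ∃ c < 2 ^ t, ∀ i < t, bt c i = x i := by
  induction t with
  | zero => exact ⟨0, by simp, fun i hi => absurd hi (by omega)⟩
  | succ t ih =>
    obtain ⟨c, hc, h⟩ := ih
    have hb := hx t
    have h2 : 2 ^ t * x t ≤ 2 ^ t * 1 := Nat.mul_le_mul_left _ hb
    refine ⟨c + 2 ^ t * x t, by rw [pow_succ]; omega, fun i hi => ?_⟩
    rcases Nat.lt_succ_iff_lt_or_eq.1 hi with h1 | rfl
    · rw [← h i h1]
      unfold bt
      obtain ⟨r, rfl⟩ : ∃ r, t = i + (r + 1) := ⟨t - i - 1, by omega⟩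
      have e : c + 2 ^ (i + (r + 1)) * x (i + (r + 1)) =
          c + 2 ^ i * (2 * (2 ^ r * x (i + (r + 1)))) := by
        rw [pow_add, pow_succ]; ring
      rw [e, Nat.add_mul_div_left _ _ (by positivity)]
      omega
    · unfold bt
      rw [Nat.add_mul_div_left _ _ (by positivity), Nat.div_eq_of_lt hc]
      omega

section

variable (T : List ℕ → Bool)

/-- Some binary string of length `t` continues `σ` inside the tree. -/
def Al1 (σ : List ℕ) (t : ℕ) : Prop :=
  ∃ x : ℕ → ℕ, (∀ i, x i ≤ 1) ∧ ∀ j ≤ t, T (σ ++ pre x j) = true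

/-- Number of violations. -/
def bad (σ : List ℕ) (t c : ℕ) : ℕ :=
  Nat.rec 0 (fun j acc => acc + (!(T (σ ++ pre (bt c) j))).toNat) (t + 1)

/-- Number of continuations. -/
def num (σ : List ℕ) (t : ℕ) : ℕ :=
  Nat.rec 0 (fun c acc => acc + (decide (bad T σ t c < 1)).toNat) (2 ^ t)

/-- The test for `Al1`. -/
def alb (σ : List ℕ) (t : ℕ) : Bool := decide (0 < num T σ t)

open Finset in
lemma bad_iff (σ : List ℕ) (t c : ℕ) :
    bad T σ t c < 1 ↔ ∀ j ≤ t, T (σ ++ pre (bt c) j) = true := by
  have e : bad T σ t c = #{j ∈ range (t + 1) | (!(T (σ ++ pre (bt c) j))) = true} :=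
    rec_count (fun j => !(T (σ ++ pre (bt c) j))) (t + 1)
  rw [e, Nat.lt_one_iff, card_eq_zero, filter_eq_empty_iff]
  constructor
  · intro h j hj
    have := h (mem_range.2 (by omega : j < t + 1))
    simpa using this
  · intro h j hj
    have := h j (by have := mem_range.1 hj; omega)
    simp [this]

open Finset in
lemma alb_iff (σ : List ℕ) (t : ℕ) : alb T σ t = true ↔ Al1 T σ t := by
  unfold alb num
  rw [decide_eq_true_eq, rec_count, card_pos]
  constructor
  · rintro ⟨c, hc⟩
    rw [mem_filter, decide_eq_true_eq, bad_iff] at hc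
    exact ⟨bt c, bt_le c, hc.2⟩
  · rintro ⟨x, hx, h⟩
    obtain ⟨c, hc, hp⟩ := exists_bt x hx t
    refine ⟨c, ?_⟩
    rw [mem_filter, decide_eq_true_eq, bad_iff]
    refine ⟨mem_range.2 hc, fun j hj => ?_⟩
    have e : pre (bt c) j = pre x j := by
      apply List.ext_getElem?
      intro i
      rw [pre_getElem?, pre_getElem?]
      by_cases hi : i < j
      · rw [if_pos hi, if_pos hi, hp i (by omega)]
      · rw [if_neg hi, if_neg hi]
    rw [e]
    exact h j hj

variable {T}

seal pre bt in
lemma bad_computable (hT : Computable T) :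
    Computable (fun p : (List ℕ × ℕ) × ℕ => bad T p.1.1 p.1.2 p.2) := by
  have h1 : Computable₂ (fun (a : (List ℕ × ℕ) × ℕ) (j : ℕ) =>
      !(T (a.1.1 ++ pre (bt a.2) j))) := by
    have hq : Computable (fun q : ((List ℕ × ℕ) × ℕ) × ℕ => ((q.1.2, q.2) : ℕ × ℕ)) :=
      (Computable.snd.comp Computable.fst).pair Computable.snd
    have hp : Computable (fun q : ((List ℕ × ℕ) × ℕ) × ℕ => pre (bt q.1.2) q.2) :=
      pre_bt_primrec.to_comp.comp hq
    have hs : Computable (fun q : ((List ℕ × ℕ) × ℕ) × ℕ => q.1.1.1) :=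
      Computable.fst.comp (Computable.fst.comp Computable.fst)
    exact Primrec.not.to_comp.comp (hT.comp
      ((Primrec.list_append.to_comp : Computable₂ _).comp hs hp))
  have h2 := count_comp h1 (Computable.succ.comp (Computable.snd.comp
    (Computable.fst : Computable (fun q : (List ℕ × ℕ) × ℕ => q.1))))
  exact h2

seal pre bt in
lemma alb_computable (hT : Computable T) : Computable₂ (alb T) := by
  have h1 : Computable₂ (fun (a : List ℕ × ℕ) (c : ℕ) => decide (bad T a.1 a.2 c < 1)) :=
    lt_comp_gen (bad_computable hT) (Computable.const 1)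
  have h2 := count_comp h1 (two_pow_computable
    (Computable.snd : Computable (fun q : List ℕ × ℕ => q.2)))
  exact lt_comp_gen (Computable.const 0) h2

/-- Which of the two continuations is seen to die. -/
def stp (T : List ℕ → Bool) (σ : List ℕ) (t : ℕ) : Option ℕ :=
  bif alb T (σ ++ [0]) t then (bif alb T (σ ++ [1]) t then none else some 1) else some 0

lemma stp_computable (hT : Computable T) : Computable₂ (stp T) := by
  have happ : ∀ b : ℕ, Computable (fun q : List ℕ × ℕ => q.1 ++ [b]) := fun b =>
    Computable.list_concat.comp Computable.fst (Computable.const b)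
  have h : ∀ b : ℕ, Computable (fun q : List ℕ × ℕ => alb T (q.1 ++ [b]) q.2) := fun b =>
    (alb_computable hT).comp (happ b) Computable.snd
  exact Computable.cond (h 0) (Computable.cond (h 1) (Computable.const none)
    (Computable.const (some 1))) (Computable.const (some 0))

/-- The invariant. -/
def Inv (T : List ℕ → Bool) (σ : List ℕ) : Prop := ∀ t, Al1 T σ t

lemma Al1_anti {σ : List ℕ} {t t' : ℕ} (h : t ≤ t') (ha : Al1 T σ t') : Al1 T σ t := by
  obtain ⟨x, hx, hj⟩ := ha
  exact ⟨x, hx, fun j hj' => hj j (hj'.trans h)⟩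

lemma pre_succ' (x : ℕ → ℕ) (j : ℕ) : pre x (j + 1) = x 0 :: pre (fun i => x (i + 1)) j := by
  unfold pre
  rw [List.ofFn_succ]
  rfl

lemma Al1_succ {σ : List ℕ} {t : ℕ} (ha : Al1 T σ (t + 1)) :
    Al1 T (σ ++ [0]) t ∨ Al1 T (σ ++ [1]) t := by
  obtain ⟨x, hx, hj⟩ := ha
  have key : Al1 T (σ ++ [x 0]) t := by
    refine ⟨fun i => x (i + 1), fun i => hx _, fun j hj' => ?_⟩
    have := hj (j + 1) (by omega)
    rw [pre_succ'] at this
    rw [List.append_assoc, List.singleton_append]
    exact this
  have h0 := hx 0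
  rcases (by omega : x 0 = 0 ∨ x 0 = 1) with h | h
  · left; rw [h] at key; exact key
  · right; rw [h] at key; exact key

lemma Inv_not_both {σ : List ℕ} (h : Inv T σ) {s t : ℕ} (h0 : ¬ Al1 T (σ ++ [0]) s)
    (h1 : ¬ Al1 T (σ ++ [1]) t) : False := by
  rcases Al1_succ (h (max s t + 1)) with h2 | h2
  · exact h0 (Al1_anti (le_max_left _ _) h2)
  · exact h1 (Al1_anti (le_max_right _ _) h2)

lemma Inv_step {σ : List ℕ} (h : Inv T σ) {b : ℕ} (hb : b < 2)
    (hd : b ∉ Nat.rfindOpt (stp T σ)) : Inv T (σ ++ [b]) := by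
  intro t
  by_contra hcon
  have halt : ∀ c s, alb T (σ ++ [c]) s = false ↔ ¬ Al1 T (σ ++ [c]) s := by
    intro c s
    rw [← alb_iff, Bool.not_eq_true]
  rcases (by omega : b = 0 ∨ b = 1) with rfl | rfl
  · have hdie := (halt 0 t).2 hcon
    have hno : ∀ s, alb T (σ ++ [1]) s = true := by
      intro s
      by_contra hs
      rw [Bool.not_eq_true] at hs
      exact Inv_not_both h hcon ((halt 1 s).1 hs)
    have hdom : (Nat.rfindOpt (stp T σ)).Dom := Nat.rfindOpt_dom.2 ⟨t, 0, by
      simp [stp, hdie]⟩
    obtain ⟨v, hv⟩ := Part.dom_iff_mem.1 hdom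
    obtain ⟨n, hn⟩ := Nat.rfindOpt_spec hv
    have : v = 0 := by
      simp only [stp, hno, cond_true] at hn
      cases hc : alb T (σ ++ [0]) n with
      | true => rw [hc] at hn; simp at hn
      | false => rw [hc] at hn; simpa using hn.symm
    rw [this] at hv
    exact hd hv
  · have hdie := (halt 1 t).2 hcon
    have hno : ∀ s, alb T (σ ++ [0]) s = true := by
      intro s
      by_contra hs
      rw [Bool.not_eq_true] at hs
      exact Inv_not_both h ((halt 0 s).1 hs) hcon
    have hdom : (Nat.rfindOpt (stp T σ)).Dom := Nat.rfindOpt_dom.2 ⟨t, 1, by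
      simp [stp, hdie, hno]⟩
    obtain ⟨v, hv⟩ := Part.dom_iff_mem.1 hdom
    obtain ⟨n, hn⟩ := Nat.rfindOpt_spec hv
    have : v = 1 := by
      simp only [stp, hno, cond_true] at hn
      cases hc : alb T (σ ++ [1]) n with
      | true => rw [hc] at hn; simp at hn
      | false => rw [hc] at hn; simpa using hn.symm
    rw [this] at hv
    exact hd hv

/-- Indices of the procedures. -/
lemma exists_index (hT : Computable T) : ∃ q : List ℕ → ℕ, Computable q ∧
    ∀ σ x, Code.eval (Denumerable.ofNat Code (q σ)) x = Nat.rfindOpt (stp T σ) := by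
  have h1 : Partrec (fun σ : List ℕ => Nat.rfindOpt (stp T σ)) :=
    Partrec.rfindOpt (stp_computable hT)
  have hd : Computable (fun n : ℕ => ((decode n.unpair.1 : Option (List ℕ)).getD [])) :=
    Computable.option_getD (Computable.decode.comp (Computable.fst.comp Computable.unpair))
      (Computable.const [])
  have h2 : Partrec (fun n : ℕ =>
      Nat.rfindOpt (stp T ((decode n.unpair.1 : Option (List ℕ)).getD []))) := h1.comp hd
  obtain ⟨c, hc⟩ := Code.exists_code.1 (Partrec.nat_iff.1 h2)
  refine ⟨fun σ => encode (Code.curry c (encode σ)), ?_, fun σ x => ?_⟩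
  · exact (Primrec.encode.comp (Code.primrec₂_curry.comp (Primrec.const c)
      Primrec.encode)).to_comp
  · rw [Denumerable.ofNat_encode, Code.eval_curry, hc]
    simp

end

/-- The iteration. -/
def itr (q : List ℕ → ℕ) (F : List ℕ) (k : ℕ) : List ℕ :=
  Nat.rec [] (fun _ acc => ((F[q acc]?).map (fun b => acc ++ [b])).getD acc) k

lemma itr_succ (q : List ℕ → ℕ) (F : List ℕ) (k : ℕ) :
    itr q F (k + 1) = ((F[q (itr q F k)]?).map (fun b => itr q F k ++ [b])).getD (itr q F k) :=
  rfl

lemma itr_computable {q : List ℕ → ℕ} (hq : Computable q) :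
    Computable (fun F => itr q F F.length) := by
  have h3 : Computable₂ (fun (F : List ℕ) (p : ℕ × List ℕ) =>
      ((F[q p.2]?).map (fun b => p.2 ++ [b])).getD p.2) := by
    have a1 : Computable (fun a : List ℕ × (ℕ × List ℕ) => a.2.2) :=
      Computable.snd.comp Computable.snd
    refine Computable.option_getD (Computable.option_map
      (Computable.list_getElem?.comp Computable.fst (hq.comp a1)) ?_) a1
    exact Computable.list_concat.comp (a1.comp Computable.fst) Computable.snd
  exact Computable.nat_rec Computable.list_length (Computable.const ([] : List ℕ)) h3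

lemma itr_prefix (q : List ℕ → ℕ) (F : List ℕ) {k l : ℕ} (h : k ≤ l) :
    itr q F k <+: itr q F l := by
  induction l, h using Nat.le_induction with
  | base => exact List.prefix_refl _
  | succ l _ ih =>
    refine ih.trans ?_
    rw [itr_succ]
    cases F[q (itr q F l)]? with
    | none => exact List.prefix_refl _
    | some b => exact List.prefix_append _ _

lemma itr_mono (q : List ℕ → ℕ) {F F' : List ℕ} (h : F <+: F') (k : ℕ) :
    itr q F k = itr q F' k ∨ (F[q (itr q F k)]? = Option.none ∧ itr q F k <+: itr q F' k) := by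
  induction k with
  | zero => exact Or.inl rfl
  | succ k ih =>
    rcases ih with ih | ⟨h1, h2⟩
    · cases hF : F[q (itr q F k)]? with
      | none =>
        right
        have e : itr q F (k + 1) = itr q F k := by rw [itr_succ, hF]; rfl
        rw [e]
        exact ⟨hF, ih ▸ itr_prefix q F' (Nat.le_succ k)⟩
      | some b =>
        left
        have hF' : F'[q (itr q F' k)]? = some b := by
          rw [← ih]; exact prefix_getElem? h hF
        rw [itr_succ, itr_succ, hF, hF', ih]
    · right
      have e : itr q F (k + 1) = itr q F k := by rw [itr_succ, h1]; rfl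
      rw [e]
      exact ⟨h1, h2.trans (itr_prefix q F' (Nat.le_succ k))⟩

/-- `DNR₂` is above every nonempty `Π⁰₁` class of binary sequences. -/
theorem le_dnr {P : Set (ℕ → ℕ)} (hP : IsPi01Class P) (hne : P.Nonempty) :
    MedvedevLe P DNR2 := by
  obtain ⟨T, hT, rfl⟩ := hP
  obtain ⟨q, hq, hqe⟩ := exists_index hT
  refine ⟨fun F => itr q F F.length, itr_computable hq, ?_, ?_⟩
  · intro σ τ h
    have h2 : itr q τ σ.length <+: itr q τ τ.length := itr_prefix q τ h.length_le
    rcases itr_mono q h σ.length with h1 | ⟨-, h1⟩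
    · show itr q σ σ.length <+: itr q τ τ.length
      rw [h1]; exact h2
    · exact h1.trans h2
  · intro f hf
    let S : ℕ → List ℕ := fun n => Nat.rec [] (fun _ acc => acc ++ [f (q acc)]) n
    have hS : ∀ n, S (n + 1) = S n ++ [f (q (S n))] := fun n => rfl
    let x : ℕ → ℕ := fun n => f (q (S n))
    have hSx : ∀ n, S n = pre x n := by
      intro n
      rw [pre_eq_map]
      induction n with
      | zero => rfl
      | succ n ih =>
        rw [hS, List.range_succ, List.map_append, ← ih]
        rfl
    have hInv : ∀ n, Inv T (S n) := by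
      intro n
      induction n with
      | zero =>
        obtain ⟨z, hz, hzT⟩ := hne
        intro t
        refine ⟨z, fun i => by have := hz i; omega, fun j _ => ?_⟩
        exact hzT j
      | succ n ih =>
        rw [hS]
        refine Inv_step ih (hf.1 _) ?_
        have := hf.2 (q (S n))
        rw [hqe] at this
        exact this
    refine ⟨x, ⟨fun n => hf.1 _, fun m => ?_⟩, fun n => ?_⟩
    · obtain ⟨z, -, hz⟩ := hInv m 0
      have := hz 0 le_rfl
      have e : pre z 0 = [] := rfl
      rw [e, List.append_nil, hSx] at this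
      exact this
    · obtain ⟨M0, hM0⟩ : ∃ M0, ∀ i < n, q (S i) < M0 := by
        induction n with
        | zero => exact ⟨0, fun i hi => absurd hi (by omega)⟩
        | succ n ih =>
          obtain ⟨M0, hM0⟩ := ih
          refine ⟨max M0 (q (S n) + 1), fun i hi => ?_⟩
          rcases Nat.lt_succ_iff_lt_or_eq.1 hi with h | rfl
          · exact lt_of_lt_of_le (hM0 i h) (le_max_left _ _)
          · exact lt_of_lt_of_le (Nat.lt_succ_self _) (le_max_right _ _)
      let M := max M0 n
      have hit : ∀ i ≤ n, itr q (pre f M) i = S i := by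
        intro i
        induction i with
        | zero => intro _; rfl
        | succ i ih =>
          intro hi
          rw [itr_succ, ih (by omega), pre_getElem?,
            if_pos (lt_of_lt_of_le (hM0 i (by omega)) (le_max_left _ _))]
          rfl
      refine ⟨M, fun i hi => ?_⟩
      have hpre : pre x n <+: itr q (pre f M) (pre f M).length := by
        rw [pre_length, ← hSx, ← hit n le_rfl]
        exact itr_prefix q _ (le_max_right _ _)
      show (itr q (pre f M) (pre f M).length)[i]? = some (x i)
      exact prefix_getElem? hpre (by rw [pre_getElem?, if_pos hi])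

/-- Medvedev reducibility is transitive. -/
theorem medv_trans {P Q R : Set (ℕ → ℕ)} (h1 : MedvedevLe P Q) (h2 : MedvedevLe Q R) :
    MedvedevLe P R := by
  obtain ⟨f, hf, hfm, hfr⟩ := h1
  obtain ⟨g, hg, hgm, hgr⟩ := h2
  refine ⟨fun σ => f (g σ), hf.comp hg, fun σ τ h => hfm _ _ (hgm _ _ h), fun y hy => ?_⟩
  obtain ⟨u, hu, hur⟩ := hgr y hy
  obtain ⟨x, hx, hxr⟩ := hfr u hu
  refine ⟨x, hx, fun n => ?_⟩
  obtain ⟨M, hM⟩ := hxr n
  obtain ⟨m, hm⟩ := hur M
  refine ⟨m, fun i hi => ?_⟩
  have hp : pre u M <+: g (seg y m) := by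
    rw [List.prefix_iff_getElem?]
    intro j hj
    rw [pre_length] at hj
    rw [hm j hj]
    simp [pre]
  exact prefix_getElem? (hfm _ _ hp) (hM i hi)

end Pool.Agent.Y602.ST
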