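import Pool.Agent.H715R3.S5

set_option autoImplicit false

/-!
Every point of a subshift of finite type that maps to the sofic subshift of `H715R3` computes,
by one and the same Turing functional, a function that disagrees with the diagonal of the
standard enumeration of partial computable functions and takes the values `0` and `1`.
-/

namespace Pool.Agent.Y602.ST

open Encodable Nat.Partrec Pool.Agent.H715R3.Medv Pool.Agent.H715R3.Sof

/-- The `{0, 1}`-valued diagonally non-computable functions. -/
def DNR2 : Set (ℕ → ℕ) :=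
  {u | (∀ e, u e < 2) ∧ ∀ e, u e ∉ Code.eval (Denumerable.ofNat Code e) e}

/-! ### Bounded search -/

/-- Least `j < n` with `p j`, or `n`. -/
def fi (p : ℕ → Bool) (n : ℕ) : ℕ := (List.range n).findIdx p

lemma fi_le (p : ℕ → Bool) (n : ℕ) : fi p n ≤ n := by
  have := List.findIdx_le_length (xs := List.range n) (p := p)
  simpa [fi] using this

lemma fi_spec {p : ℕ → Bool} {n : ℕ} (h : fi p n < n) : p (fi p n) = true := by
  have h' : (List.range n).findIdx p < (List.range n).length := by simpa [fi] using h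
  have := List.findIdx_getElem (w := h')
  simpa [fi] using this

lemma fi_min {p : ℕ → Bool} {n i : ℕ} (h : i < fi p n) : p i = false := by
  have := List.not_of_lt_findIdx (xs := List.range n) (p := p) h
  simpa using this

/-! ### The search for a pair of different values -/

/-- The pair coded by `j` shows two different values in `σ` at positions below `j`. -/
def chk (σ : List ℕ) (j : ℕ) : Bool :=
  ((decode j.unpair.1 : Option (Wd2 × Fin 36)).map (fun p =>
    decide (encode p.1 < j) && (decide (encode (p.1 ++ [(emb p.2, true)]) < j) &&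
      !(decide (σ[encode p.1]? = σ[encode (p.1 ++ [(emb p.2, true)])]?))))).getD false

lemma emb_primrec : Primrec emb := Primrec.dom_finite _

lemma chk_primrec : Primrec₂ chk := by
  let β := (List ℕ × ℕ) × (Wd2 × Fin 36)
  have σ : Primrec (fun a : β => a.1.1) := Primrec.fst.comp Primrec.fst
  have j : Primrec (fun a : β => a.1.2) := Primrec.snd.comp Primrec.fst
  have w : Primrec (fun a : β => a.2.1) := Primrec.fst.comp Primrec.snd
  have s : Primrec (fun a : β => a.2.2) := Primrec.snd.comp Primrec.snd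
  have ws : Primrec (fun a : β => a.2.1 ++ [(emb a.2.2, true)]) :=
    Primrec.list_append.comp w (Primrec.list_cons.comp
      ((emb_primrec.comp s).pair (Primrec.const true)) (Primrec.const []))
  have h1 : Primrec (fun a : β => decide (encode a.2.1 < a.1.2)) :=
    (Primrec.nat_lt.comp (Primrec.encode.comp w) j).decide
  have h2 : Primrec (fun a : β => decide (encode (a.2.1 ++ [(emb a.2.2, true)]) < a.1.2)) :=
    (Primrec.nat_lt.comp (Primrec.encode.comp ws) j).decide
  have h3 : Primrec (fun a : β => decide (a.1.1[encode a.2.1]? =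
      a.1.1[encode (a.2.1 ++ [(emb a.2.2, true)])]?)) :=
    (Primrec.eq.comp (Primrec.list_getElem?.comp σ (Primrec.encode.comp w))
      (Primrec.list_getElem?.comp σ (Primrec.encode.comp ws))).decide
  refine Primrec.option_getD.comp (Primrec.option_map (Primrec.decode.comp
    (Primrec.fst.comp (Primrec.unpair.comp Primrec.snd))) ?_) (Primrec.const false)
  exact Primrec.and.comp h1 (Primrec.and.comp h2 (Primrec.not.comp h3))

lemma chk_iff (σ : List ℕ) (j : ℕ) : chk σ j = true ↔ ∃ (w : Wd2) (s : Fin 36),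
    decode j.unpair.1 = some (w, s) ∧ encode w < j ∧ encode (w ++ [(emb s, true)]) < j ∧
      σ[encode w]? ≠ σ[encode (w ++ [(emb s, true)])]? := by
  unfold chk
  cases hd : (decode j.unpair.1 : Option (Wd2 × Fin 36)) with
  | none => simp
  | some p =>
    obtain ⟨w, s⟩ := p
    simp only [Option.map_some, Option.getD_some, Bool.and_eq_true, decide_eq_true_eq,
      Bool.not_eq_true', decide_eq_false_iff_not, Option.some.injEq, Prod.mk.injEq]
    constructor
    · rintro ⟨h1, h2, h3⟩
      exact ⟨w, s, ⟨rfl, rfl⟩, h1, h2, h3⟩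
    · rintro ⟨w', s', ⟨rfl, rfl⟩, h1, h2, h3⟩
      exact ⟨h1, h2, h3⟩

lemma prefix_same {σ τ : List ℕ} (h : σ <+: τ) {i : ℕ} (hi : i < σ.length) :
    τ[i]? = σ[i]? := by
  rw [List.getElem?_eq_getElem hi]
  exact prefix_getElem? h (List.getElem?_eq_getElem hi)

lemma chk_same {σ τ : List ℕ} (h : σ <+: τ) {j : ℕ} (hj : j ≤ σ.length) :
    chk τ j = chk σ j := by
  rw [Bool.eq_iff_iff, chk_iff, chk_iff]
  constructor
  · rintro ⟨w, s, h1, h2, h3, h4⟩
    rw [prefix_same h (by omega), prefix_same h (by omega)] at h4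
    exact ⟨w, s, h1, h2, h3, h4⟩
  · rintro ⟨w, s, h1, h2, h3, h4⟩
    refine ⟨w, s, h1, h2, h3, ?_⟩
    rw [prefix_same h (by omega), prefix_same h (by omega)]
    exact h4

/-- The first code of such a pair. -/
def TT1 (σ : List ℕ) : ℕ := fi (chk σ) (σ.length + 1)

lemma TT1_primrec : Primrec TT1 := by
  unfold TT1 fi
  exact Primrec.list_findIdx (Primrec.list_range.comp (Primrec.succ.comp Primrec.list_length))
    chk_primrec

lemma TT1_same {σ τ : List ℕ} (h : σ <+: τ) (hT : TT1 σ ≤ σ.length) : TT1 τ = TT1 σ := by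
  have h1 : chk σ (TT1 σ) = true := fi_spec (show fi (chk σ) (σ.length + 1) < σ.length + 1 by
    have : fi (chk σ) (σ.length + 1) = TT1 σ := rfl
    omega)
  have hl := h.length_le
  rcases lt_trichotomy (TT1 τ) (TT1 σ) with hlt | heq | hgt
  · exfalso
    have h2 : chk τ (TT1 τ) = true := fi_spec (show fi (chk τ) (τ.length + 1) < τ.length + 1 by
      have : fi (chk τ) (τ.length + 1) = TT1 τ := rfl
      omega)
    rw [chk_same h (by omega)] at h2
    have h3 : chk σ (TT1 τ) = false := fi_min (show TT1 τ < fi (chk σ) (σ.length + 1) from hlt)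
    rw [h3] at h2
    exact absurd h2 (by decide)
  · exact heq
  · exfalso
    have h3 : chk τ (TT1 σ) = false := fi_min (show TT1 σ < fi (chk τ) (τ.length + 1) from hgt)
    rw [chk_same h hT, h1] at h3
    exact absurd h3 (by decide)

/-! ### The values of the functional -/

/-- The value at `e`. -/
def hv (σ : List ℕ) (e : ℕ) : Option ℕ :=
  if TT1 σ ≤ σ.length then
    (decode (TT1 σ).unpair.1 : Option (Wd2 × Fin 36)).bind (fun p =>
      (σ[encode (p.1 ++ embW (U p.2 e))]?).bind (fun a =>
        (σ[encode p.1]?).map (fun b => if a = b then 1 else 0)))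
  else none

lemma hv_primrec : Primrec₂ hv := by
  have hlen : Primrec (fun q : List ℕ × ℕ => q.1.length) := Primrec.list_length.comp Primrec.fst
  have hT : Primrec (fun q : List ℕ × ℕ => TT1 q.1) := TT1_primrec.comp Primrec.fst
  have hc : PrimrecPred (fun q : List ℕ × ℕ => TT1 q.1 ≤ q.1.length) :=
    Primrec.nat_le.comp hT hlen
  refine Primrec.ite hc ?_ (Primrec.const none)
  refine Primrec.option_bind (Primrec.decode.comp (Primrec.fst.comp (Primrec.unpair.comp hT))) ?_
  let β := (List ℕ × ℕ) × (Wd2 × Fin 36)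
  have σ : Primrec (fun a : β => a.1.1) := Primrec.fst.comp Primrec.fst
  have e : Primrec (fun a : β => a.1.2) := Primrec.snd.comp Primrec.fst
  have w : Primrec (fun a : β => a.2.1) := Primrec.fst.comp Primrec.snd
  have s : Primrec (fun a : β => a.2.2) := Primrec.snd.comp Primrec.snd
  have wu : Primrec (fun a : β => a.2.1 ++ embW (U a.2.2 a.1.2)) :=
    Primrec.list_append.comp w (embW_primrec.comp (U_primrec₂.comp s e))
  have g1 : Primrec (fun a : β => a.1.1[encode (a.2.1 ++ embW (U a.2.2 a.1.2))]?) :=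
    Primrec.list_getElem?.comp σ (Primrec.encode.comp wu)
  have g2 : Primrec (fun a : β => a.1.1[encode a.2.1]?) :=
    Primrec.list_getElem?.comp σ (Primrec.encode.comp w)
  refine Primrec.option_bind g1 ?_
  refine Primrec.option_map (g2.comp Primrec.fst) ?_
  exact Primrec.ite (Primrec.eq.comp (Primrec.snd.comp Primrec.fst) Primrec.snd)
    (Primrec.const 1) (Primrec.const 0)

lemma hv_some {σ : List ℕ} {e v : ℕ} (h : hv σ e = some v) : TT1 σ ≤ σ.length ∧
    ∃ (w : Wd2) (s : Fin 36) (a b : ℕ), decode (TT1 σ).unpair.1 = some (w, s) ∧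
      σ[encode (w ++ embW (U s e))]? = some a ∧ σ[encode w]? = some b ∧
      v = if a = b then 1 else 0 := by
  unfold hv at h
  by_cases hT : TT1 σ ≤ σ.length
  · rw [if_pos hT] at h
    refine ⟨hT, ?_⟩
    rw [Option.bind_eq_some_iff] at h
    obtain ⟨⟨w, s⟩, hd, h⟩ := h
    rw [Option.bind_eq_some_iff] at h
    obtain ⟨a, ha, h⟩ := h
    rw [Option.map_eq_some_iff] at h
    obtain ⟨b, hb, h⟩ := h
    exact ⟨w, s, a, b, hd, ha, hb, h.symm⟩
  · rw [if_neg hT] at h
    exact absurd h (by simp)

lemma hv_of {σ : List ℕ} {e : ℕ} {w : Wd2} {s : Fin 36} {a b : ℕ} (hT : TT1 σ ≤ σ.length)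
    (hd : decode (TT1 σ).unpair.1 = some (w, s))
    (ha : σ[encode (w ++ embW (U s e))]? = some a) (hb : σ[encode w]? = some b) :
    hv σ e = some (if a = b then 1 else 0) := by
  unfold hv
  rw [if_pos hT, hd]
  simp only [Option.bind_some, ha, hb, Option.map_some]

lemma hv_mono {σ τ : List ℕ} (h : σ <+: τ) {e v : ℕ} (hs : hv σ e = some v) :
    hv τ e = some v := by
  obtain ⟨hT, w, s, a, b, hd, ha, hb, rfl⟩ := hv_some hs
  have hT' := TT1_same h hT
  have hl := h.length_le
  refine hv_of (by omega) (by rw [hT']; exact hd) (prefix_getElem? h ha) (prefix_getElem? h hb)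

/-- How many values are known. -/
def NN1 (σ : List ℕ) : ℕ := fi (fun e => (hv σ e).isNone) σ.length

/-- The functional. -/
def ff (σ : List ℕ) : List ℕ := (List.range (NN1 σ)).map (fun e => (hv σ e).getD 0)

lemma isNone_primrec : Primrec (fun o : Option ℕ => o.isNone) := by
  refine (Primrec.not.comp Primrec.option_isSome).of_eq ?_
  intro o
  cases o <;> rfl

lemma ff_primrec : Primrec ff := by
  have h1 : Primrec NN1 := by
    unfold NN1 fi
    exact Primrec.list_findIdx (Primrec.list_range.comp Primrec.list_length)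
      (isNone_primrec.comp hv_primrec).to₂
  exact Primrec.list_map (Primrec.list_range.comp h1)
    (Primrec.option_getD.comp hv_primrec (Primrec.const 0)).to₂

lemma NN1_some {σ : List ℕ} {i : ℕ} (h : i < NN1 σ) : ∃ v, hv σ i = some v := by
  have h1 : (hv σ i).isNone = false := fi_min (p := fun e => (hv σ e).isNone) h
  cases h2 : hv σ i with
  | none => rw [h2] at h1; exact absurd h1 (by decide)
  | some v => exact ⟨v, rfl⟩

lemma le_NN1 {σ : List ℕ} {n : ℕ} (hn : n ≤ σ.length) (h : ∀ i < n, ∃ v, hv σ i = some v) :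
    n ≤ NN1 σ := by
  by_contra hcon
  push Not at hcon
  have h1 : (hv σ (NN1 σ)).isNone = true :=
    fi_spec (p := fun e => (hv σ e).isNone) (show NN1 σ < σ.length by omega)
  obtain ⟨v, hv'⟩ := h _ hcon
  rw [hv'] at h1
  simp at h1

lemma ff_getElem? {σ : List ℕ} {i : ℕ} (h : i < NN1 σ) : (ff σ)[i]? = hv σ i := by
  obtain ⟨v, hv'⟩ := NN1_some h
  unfold ff
  rw [List.getElem?_map, List.getElem?_range h, hv']
  simp [hv']

lemma ff_length (σ : List ℕ) : (ff σ).length = NN1 σ := by simp [ff]

lemma ff_mono (σ τ : List ℕ) (h : σ <+: τ) : ff σ <+: ff τ := by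
  have hN : NN1 σ ≤ NN1 τ := by
    refine le_NN1 ?_ ?_
    · exact (fi_le _ _).trans h.length_le
    · intro i hi
      obtain ⟨v, hv'⟩ := NN1_some hi
      exact ⟨v, hv_mono h hv'⟩
  rw [List.prefix_iff_getElem?]
  intro i hi
  rw [ff_length] at hi
  obtain ⟨v, hv'⟩ := NN1_some hi
  rw [ff_getElem? (by omega), hv_mono h hv', ← List.getElem?_eq_getElem, ff_getElem? hi, hv']

/-! ### Points that are not constant along the first factor -/

/-- A configuration on `G2` that is constant along `GG` on generators is constant along `GG`. -/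
lemma inv_of_gens {k : ℕ} (x : G2 → Fin k)
    (h : ∀ (g : GG) (s : Fin 36) (n : Multiplicative ℤ), x (g, n) = x (g * gens s, n)) (g : GG)
    (n : Multiplicative ℤ) : x (g, n) = x (1, n) :=
  const_of_gens (fun g => x (g, n)) (fun g s => h g s n) g

/-- No point of a subshift of finite type with a map to the sofic subshift is constant along the
first factor. -/
theorem not_inv {k : ℕ} {X : Set (G2 → Fin k)} {φ : X → (G2 → Fin 2)} (hX : IsSFT X)
    (heq : ∀ (g : G2) (x x' : X), x'.1 = translate g x.1 → φ x' = translate g (φ x))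
    (hran : ∀ x, φ x ∈ YY) {x : G2 → Fin k} (hx : x ∈ X)
    (hinv : ∀ (g : GG) (n : Multiplicative ℤ), x (g, n) = x (1, n)) : False := by
  obtain ⟨x', hx', p, hp, hper⟩ := exists_periodic hX hx hinv
  have h1 : φ ⟨x', hx'⟩ ∈ YY := hran _
  refine YY_aperiodic h1 hp (fun g n => ?_)
  have h2 := heq (1, Multiplicative.ofAdd (-p)) ⟨x', hx'⟩ ⟨x', hx'⟩ (by
    funext t
    obtain ⟨h, m, rfl⟩ : ∃ (h : GG) (m : ℤ), t = (h, Multiplicative.ofAdd m) :=
      ⟨t.1, Multiplicative.toAdd t.2, rfl⟩
    show x' (h, Multiplicative.ofAdd m) = x' ((1, Multiplicative.ofAdd (-p))⁻¹ *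
      (h, Multiplicative.ofAdd m))
    have e : ((1, Multiplicative.ofAdd (-p)) : G2)⁻¹ * (h, Multiplicative.ofAdd m) =
        (h, Multiplicative.ofAdd (m + p)) := by
      simp only [Prod.inv_mk, inv_one, Prod.mk_mul_mk, one_mul]
      rw [← ofAdd_neg, neg_neg, ← ofAdd_add, add_comm]
    rw [e, hper])
  have h3 := congrFun h2 (g, Multiplicative.ofAdd n)
  rw [h3]
  show _ = φ ⟨x', hx'⟩ ((1, Multiplicative.ofAdd (-p))⁻¹ * (g, Multiplicative.ofAdd n))
  have e : ((1, Multiplicative.ofAdd (-p)) : G2)⁻¹ * (g, Multiplicative.ofAdd n) =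
      (g, Multiplicative.ofAdd (n + p)) := by
    simp only [Prod.inv_mk, inv_one, Prod.mk_mul_mk, one_mul]
    rw [← ofAdd_neg, neg_neg, ← ofAdd_add, add_comm]
  rw [e]

lemma wordVal_surj2 (g : GG) (n : Multiplicative ℤ) : ∃ w : Wd2, wordVal gens2 w = (g, n) := by
  obtain ⟨w, rfl⟩ := ev_surj g
  refine ⟨embW w ++ zw (Multiplicative.toAdd n), ?_⟩
  rw [wordVal_append, wordVal_embW, wordVal_zw]
  simp

/-- The functional sends the pullback of a configuration that is not constant along the first
factor to a diagonally non-computable function. -/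
theorem ff_spec {k : ℕ} (x : G2 → Fin k) (y : ℕ → ℕ)
    (hy : ∀ w : Wd2, y (encode w) = (x (wordVal gens2 w)).val)
    (hne : ∃ (g : GG) (s : Fin 36) (n : Multiplicative ℤ), x (g, n) ≠ x (g * gens s, n)) :
    ∃ u ∈ DNR2, ∀ n : ℕ, ∃ m : ℕ, ∀ i < n, (ff (seg y m))[i]? = some (u i) := by
  -- a first pair exists
  have hex : ∃ j, chk (pre y j) j = true := by
    obtain ⟨g, s, n, hd⟩ := hne
    obtain ⟨w, hw⟩ := wordVal_surj2 g n
    set P := max (encode w) (encode (w ++ [(emb s, true)])) + 1 with hP
    refine ⟨Nat.pair (encode (w, s)) P, ?_⟩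
    have hle : P ≤ Nat.pair (encode (w, s)) P := Nat.right_le_pair _ _
    rw [chk_iff]
    refine ⟨w, s, by simp, by omega, by omega, ?_⟩
    rw [pre_getElem?, pre_getElem?, if_pos (by omega), if_pos (by omega), hy, hy,
      wordVal_append, hw]
    intro e
    apply hd
    have e2 : wordVal gens2 [(emb s, true)] = (gens s, 1) := by
      simp [wordVal, gens2_emb]
    rw [e2] at e
    have e3 := Fin.ext (Option.some.inj e)
    rw [e3]
    simp
  classical
  let J := Nat.find hex
  have hJ : chk (pre y J) J = true := Nat.find_spec hex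
  have hJT : TT1 (pre y J) = J := by
    have h1 : fi (chk (pre y J)) (J + 1) = TT1 (pre y J) := by
      unfold TT1; rw [pre_length]
    rcases lt_trichotomy (TT1 (pre y J)) J with hlt | heq | hgt
    · exfalso
      have h2 : chk (pre y J) (TT1 (pre y J)) = true := by
        rw [← h1]; exact fi_spec (by rw [h1]; omega)
      rw [chk_same (pre_prefix y hlt.le) (by rw [pre_length])] at h2
      exact Nat.find_min hex hlt h2
    · exact heq
    · exfalso
      have h2 : chk (pre y J) J = false := fi_min (n := J + 1) (by rw [h1]; exact hgt)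
      rw [hJ] at h2
      exact absurd h2 (by decide)
  have hTM : ∀ M, J ≤ M → TT1 (pre y M) = J := by
    intro M hM
    rw [TT1_same (pre_prefix y hM) (by rw [hJT, pre_length]), hJT]
  obtain ⟨w, s, hdec, hw1, hw2, hdiff⟩ := (chk_iff _ _).1 hJ
  rw [pre_getElem?, pre_getElem?, if_pos hw1, if_pos hw2, hy, hy] at hdiff
  let u : ℕ → ℕ := fun e => if y (encode (w ++ embW (U s e))) = y (encode w) then 1 else 0
  have hval : ∀ e M, J ≤ M → encode (w ++ embW (U s e)) < M → hv (pre y M) e = some (u e) := by
    intro e M hM he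
    have hT := hTM M hM
    refine hv_of (w := w) (s := s) ?_ ?_ ?_ ?_
    · rw [hT, pre_length]; exact hM
    · rw [hT]; exact hdec
    · rw [pre_getElem?, if_pos he]
    · rw [pre_getElem?, if_pos (by omega)]
  refine ⟨u, ⟨fun e => ?_, fun e he => ?_⟩, fun n => ?_⟩
  · simp only [u]
    split_ifs <;> omega
  · obtain ⟨t, ht⟩ := Code.evaln_complete.1 he
    have hst : stg e t = some (u e) := Option.mem_def.1 ht
    by_cases hc : y (encode (w ++ embW (U s e))) = y (encode w)
    · have hu : u e = 1 := if_pos hc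
      rw [hu] at hst
      rw [hy, hy, wordVal_append, wordVal_embW, ev_U_B ⟨t, hst⟩] at hc
      apply hdiff
      have e2 : wordVal gens2 [(emb s, true)] = (gens s, 1) := by
        simp [wordVal, gens2_emb]
      rw [wordVal_append, e2, hc]
    · have hu : u e = 0 := if_neg hc
      rw [hu] at hst
      apply hc
      rw [hy, hy, wordVal_append, wordVal_embW, ev_U_A ⟨t, hst⟩]
      congr 2
      ext1 <;> simp
  · obtain ⟨M0, hM0⟩ : ∃ M0, ∀ i < n, encode (w ++ embW (U s i)) < M0 := by
      induction n with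
      | zero => exact ⟨0, fun i hi => absurd hi (by omega)⟩
      | succ n ih =>
        obtain ⟨M0, hM0⟩ := ih
        refine ⟨max M0 (encode (w ++ embW (U s n)) + 1), fun i hi => ?_⟩
        rcases Nat.lt_succ_iff_lt_or_eq.1 hi with h | rfl
        · exact lt_of_lt_of_le (hM0 i h) (le_max_left _ _)
        · exact lt_of_lt_of_le (Nat.lt_succ_self _) (le_max_right _ _)
    let M := max (max M0 J) n
    have hk : ∀ i < n, hv (pre y M) i = some (u i) := fun i hi =>
      hval i M ((le_max_right _ _).trans (le_max_left _ _))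
        (lt_of_lt_of_le (hM0 i hi) ((le_max_left _ _).trans (le_max_left _ _)))
    have hn : n ≤ NN1 (pre y M) :=
      le_NN1 (by rw [pre_length]; exact le_max_right _ _) (fun i hi => ⟨_, hk i hi⟩)
    refine ⟨M, fun i hi => ?_⟩
    show (ff (pre y M))[i]? = _
    rw [ff_getElem? (by omega), hk i hi]

/-- Every subshift of finite type with an equivariant map to the sofic subshift lies above the
class of `{0, 1}`-valued diagonally non-computable functions. -/
theorem dnr_le {k : ℕ} {X : Set (G2 → Fin k)} {φ : X → (G2 → Fin 2)} (hX : IsSFT X)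
    (heq : ∀ (g : G2) (x x' : X), x'.1 = translate g x.1 → φ x' = translate g (φ x))
    (hran : ∀ x, φ x ∈ YY) : MedvedevLe DNR2 (pull gens2 X) := by
  refine ⟨ff, ff_primrec.to_comp, ff_mono, ?_⟩
  rintro y ⟨x, hx, hxy⟩
  refine ff_spec x y (fun w => ?_) ?_
  · rw [hxy, Encodable.encodek]
    rfl
  · by_contra hcon
    push Not at hcon
    exact not_inv hX heq hran hx (inv_of_gens x hcon)

/-- There is no computable diagonally non-computable function. -/
theorem dnr_not_computable {u : ℕ → ℕ} (hu : u ∈ DNR2) : ¬ Computable u := by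
  intro hc
  obtain ⟨c, hcc⟩ := Code.exists_code.1 (Partrec.nat_iff.1 hc.partrec)
  refine hu.2 (encode c) ?_
  rw [Denumerable.ofNat_encode, hcc]
  simp

/-- A computable point cannot exist above `DNR2`. -/
theorem no_computable_above {P : Set (ℕ → ℕ)} (h : MedvedevLe DNR2 P) {y : ℕ → ℕ} (hy : y ∈ P) :
    ¬ Computable y := by
  intro hc
  obtain ⟨f, hf, hfm, hfr⟩ := h
  obtain ⟨u, hu, hur⟩ := hfr y hy
  exact dnr_not_computable hu (computable_of_reduction hf hfm hc hur)

end Pool.Agent.Y602.ST
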